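import Pool.Agent.Lib.MP_b5021c_nt.IfaceK2

/-!
# Row HSP: the span goes up under completion
-/

namespace Pool.Agent.MP_b5021c_nt.H96

open Polynomial Pool.Agent.MP_b5021c_nt

/-- Extension of a vector by zero at `none`. -/
noncomputable def ext0 (ι : Type) : (ι → ℚ) →ₗ[ℚ] (Option ι → ℚ) where
  toFun x := fun o => o.elim 0 x
  map_add' x y := by
    funext o
    cases o <;> simp
  map_smul' c x := by
    funext o
    cases o <;> simp

theorem ext0_none {ι : Type} (x : ι → ℚ) : ext0 ι x none = 0 := rfl

theorem ext0_some {ι : Type} (x : ι → ℚ) (i : ι) : ext0 ι x (some i) = x i := rfl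

/-- Some coefficient of degree `degz D` does not vanish. -/
theorem exists_top {ι : Type} [Fintype ι] [DecidableEq ι] (D : Finset ι → ℤ[X])
    (h0 : (D ∅).coeff 0 = 1) : ∃ S, (D S).coeff (degz D) ≠ 0 := by
  by_cases hN : degz D = 0
  · refine ⟨∅, ?_⟩
    rw [hN, h0]
    exact one_ne_zero
  · obtain ⟨S, -, hS⟩ := Finset.exists_mem_eq_sup (Finset.univ : Finset (Finset ι))
      ⟨∅, Finset.mem_univ _⟩ (fun S => (D S).natDegree)
    have hS' : degz D = (D S).natDegree := hS
    refine ⟨S, ?_⟩
    rw [hS']
    have hne : D S ≠ 0 := by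
      intro h
      rw [h, natDegree_zero] at hS'
      exact hN hS'
    exact leadingCoeff_ne_zero.mpr hne

theorem hsp : HspS := by
  intro ι _ _ D h0 hsp
  unfold SpanK at hsp ⊢
  set N := degz D with hN
  set W := Submodule.span ℚ {v : Option ι → ℚ | ∃ S : Finset (Option ι),
    (join D (rev N D) S).coeff 0 ≠ 0 ∧ v = fun i => if i ∈ S then 1 else 0} with hW
  -- step 1
  have h1 : ∀ x : ι → ℚ, ext0 ι x ∈ W := by
    have hle : Submodule.map (ext0 ι) (Submodule.span ℚ {v : ι → ℚ | ∃ S : Finset ι,
        (D S).coeff 0 ≠ 0 ∧ v = fun i => if i ∈ S then 1 else 0}) ≤ W := by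
      rw [Submodule.map_span, Submodule.span_le]
      rintro _ ⟨v, ⟨S, hS, rfl⟩, rfl⟩
      apply Submodule.subset_span
      refine ⟨S.map Function.Embedding.some, ?_, ?_⟩
      · have hnone : none ∉ S.map Function.Embedding.some := by simp
        have he : Finset.eraseNone (S.map Function.Embedding.some) = S := by
          ext i; simp
        unfold join
        rw [if_neg hnone, he]
        exact hS
      · funext o
        cases o with
        | none => rw [ext0_none]; simp
        | some i => rw [ext0_some]; simp
    rw [hsp] at hle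
    intro x
    exact hle ⟨x, Submodule.mem_top, rfl⟩
  -- step 2
  obtain ⟨S, hS⟩ := exists_top D h0
  have h2 : (fun i => if i ∈ insert none (Sᶜ.map Function.Embedding.some) then (1 : ℚ) else 0) ∈ W := by
    apply Submodule.subset_span
    refine ⟨insert none (Sᶜ.map Function.Embedding.some), ?_, rfl⟩
    have hin : none ∈ insert none (Sᶜ.map Function.Embedding.some) := Finset.mem_insert_self _ _
    have he : Finset.eraseNone (insert none (Sᶜ.map Function.Embedding.some)) = Sᶜ := by
      ext i; simp
    unfold join rev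
    rw [if_pos hin, he, compl_compl, coeff_reflect]
    rw [Polynomial.revAt_le (Nat.zero_le N), Nat.sub_zero]
    exact hS
  -- step 3
  have h3 : (Pi.single none 1 : Option ι → ℚ) ∈ W := by
    have := W.sub_mem h2 (h1 (fun i => if i ∈ Sᶜ then (1 : ℚ) else 0))
    convert this using 1
    funext o
    cases o with
    | none => rw [Pi.sub_apply, ext0_none]; simp
    | some i => rw [Pi.sub_apply, ext0_some]; simp
  rw [eq_top_iff]
  intro v _
  have h4 := W.add_mem (h1 (fun i => v (some i))) (W.smul_mem (v none) h3)
  convert h4 using 1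
  funext o
  cases o with
  | none => rw [Pi.add_apply, ext0_none]; simp
  | some i => rw [Pi.add_apply, ext0_some]; simp

end Pool.Agent.MP_b5021c_nt.H96
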